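import Pool.Agent.helper72.ODK.Spec2

set_option autoImplicit false

namespace Pool.Agent.helper72.UP

open Finset

theorem MVE_sq (N : ℕ) : ∑ i ∈ range (N + 1), N.choose i * N.choose i = (2 * N).choose N := by
  rw [two_mul, Nat.add_choose_eq N N N, Finset.Nat.sum_antidiagonal_eq_sum_range_succ_mk]
  refine sum_congr rfl fun i hi => ?_
  have hi' : i ≤ N := Nat.lt_succ_iff.1 (mem_range.1 hi)
  rw [Nat.choose_symm hi']

theorem MVE_half (N h : ℕ) (hh : h ≤ N) (h2 : N ≤ 2 * h) :
    (2 * N).choose N + N.choose h * N.choose h ≤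
      2 * ∑ i ∈ range (h + 1), N.choose i * N.choose i := by
  have e1 : ∑ i ∈ range (N + 1), N.choose i * N.choose i =
      ∑ i ∈ range (h + 1), N.choose i * N.choose i +
        ∑ i ∈ Ico (h + 1) (N + 1), N.choose i * N.choose i :=
    (sum_range_add_sum_Ico _ (by omega)).symm
  have e2 : ∑ i ∈ Ico (h + 1) (N + 1), N.choose i * N.choose i =
      ∑ i ∈ range (N - h), N.choose i * N.choose i := by
    have hr := Finset.sum_Ico_reflect (fun i => N.choose i * N.choose i) 0
      (show N - h ≤ N + 1 by omega)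
    have e3 : N + 1 - (N - h) = h + 1 := by omega
    rw [e3, Nat.sub_zero] at hr
    rw [← hr, ← range_eq_Ico]
    refine sum_congr rfl fun i hi => ?_
    have hi' : i < N - h := mem_range.1 hi
    show N.choose (N - i) * N.choose (N - i) = N.choose i * N.choose i
    rw [Nat.choose_symm (show i ≤ N by omega)]
  have e4 : ∑ i ∈ range (N - h), N.choose i * N.choose i ≤
      ∑ i ∈ range h, N.choose i * N.choose i :=
    sum_le_sum_of_subset (range_subset_range.2 (by omega))
  have e5 := sum_range_succ (fun i => N.choose i * N.choose i) h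
  have e6 := MVE_sq N
  have e5' : ∑ i ∈ range (h + 1), N.choose i * N.choose i =
    ∑ i ∈ range h, N.choose i * N.choose i + N.choose h * N.choose h := e5
  omega

theorem MVE : MVE_stmt := by
  intro N K hN h1 h2
  have hVV : 1 + VV (2 * N) (2 * K + 1) = ∑ i ∈ range (K + 1), N.choose i * N.choose i := by
    have e1 : (2 * K + 1) / 2 = K := by omega
    have e2 : (2 * N + 1) / 2 = N := by omega
    have e3 : 2 * N / 2 = N := by omega
    unfold VV uu
    rw [e1, e2, e3, sum_range_succ']
    rw [Nat.choose_zero_right, mul_one, add_comm]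
    have e4 : Icc 1 K = (range K).image (fun i => i + 1) := by
      ext i
      simp only [mem_Icc, mem_image, mem_range]
      constructor
      · rintro ⟨ha, hb⟩
        exact ⟨i - 1, by omega, by omega⟩
      · rintro ⟨j, hj, rfl⟩
        omega
    rw [e4, sum_image (fun a _ b _ hab => by simpa using hab)]
  obtain ⟨h, hh⟩ : ∃ h, h = (N + 1) / 2 := ⟨_, rfl⟩
  have hhN : h ≤ N := by omega
  have hhK : h ≤ K := by omega
  have hhalf := MVE_half N h hhN (by omega)
  have hmono : ∑ i ∈ range (h + 1), N.choose i * N.choose i ≤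
      ∑ i ∈ range (K + 1), N.choose i * N.choose i :=
    sum_le_sum_of_subset (range_subset_range.2 (by omega))
  have hc2 : 2 ≤ N.choose h := by
    have hpos : 1 ≤ h := by omega
    have hlt : h ≤ N - 1 := by omega
    obtain ⟨M, rfl⟩ : ∃ M, N = M + 1 := ⟨N - 1, by omega⟩
    obtain ⟨g, hg⟩ : ∃ g, h = g + 1 := ⟨h - 1, by omega⟩
    rw [hg, Nat.choose_succ_succ']
    have p1 : 0 < M.choose g := Nat.choose_pos (by omega)
    have p2 : 0 < M.choose (g + 1) := Nat.choose_pos (by omega)
    exact Nat.add_le_add p1 p2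
  have hc4 : 4 ≤ N.choose h * N.choose h := Nat.mul_le_mul hc2 hc2
  have hmid : (2 * N - 1).choose (2 * K) ≤ (2 * N - 1).choose (N - 1) := by
    have := Nat.choose_le_middle (2 * K) (2 * N - 1)
    have e : (2 * N - 1) / 2 = N - 1 := by omega
    rw [e] at this
    exact this
  have hdouble : (2 * N).choose N = 2 * (2 * N - 1).choose (N - 1) := by
    obtain ⟨M, rfl⟩ : ∃ M, N = M + 1 := ⟨N - 1, by omega⟩
    have e1 : 2 * (M + 1) = (2 * M + 1) + 1 := by ring
    have e2 : 2 * (M + 1) - 1 = 2 * M + 1 := by omega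
    have e3 : M + 1 - 1 = M := by omega
    rw [e2, e3, e1, Nat.choose_succ_succ, Nat.choose_symm_half]
    ring
  omega

end Pool.Agent.helper72.UP
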