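import Pool.Agent.helper72.ODK.Spec

set_option autoImplicit false

namespace Pool.Agent.helper72.UP

open Finset

theorem TOW_one (a c : ℕ) : ∑ i ∈ range (c + 2), a.choose i * (c + 2).choose (i + 1) =
    (a + (c + 2)).choose (c + 1) := by
  rw [Nat.add_choose_eq a (c + 2) (c + 1), Finset.Nat.sum_antidiagonal_eq_sum_range_succ_mk]
  refine sum_congr rfl fun i hi => ?_
  have hi' : i < c + 2 := mem_range.1 hi
  have e : (c + 2).choose (i + 1) = (c + 2).choose (c + 1 - i) :=
    Nat.choose_symm_of_eq_add (by omega)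
  rw [e]

theorem TOW_two (a c : ℕ) : ∑ i ∈ range (c + 2), a.choose i * (c + 2).choose (i + 2) =
    (a + (c + 2)).choose c := by
  rw [sum_range_succ, Nat.choose_eq_zero_of_lt (show c + 2 < c + 1 + 2 by omega), mul_zero,
    add_zero, Nat.add_choose_eq a (c + 2) c, Finset.Nat.sum_antidiagonal_eq_sum_range_succ_mk]
  refine sum_congr rfl fun i hi => ?_
  have hi' : i < c + 1 := mem_range.1 hi
  have e : (c + 2).choose (i + 2) = (c + 2).choose (c - i) :=
    Nat.choose_symm_of_eq_add (by omega)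
  rw [e]

theorem TOW : TOW_stmt := by
  intro a b hab hb
  obtain ⟨c, rfl⟩ : ∃ c, b = c + 2 := ⟨b - 2, by omega⟩
  have e1 : ∑ i ∈ range (c + 2), (a.choose i : ℝ) * ((c + 2).choose (i + 1) : ℝ) =
      ((a + (c + 2)).choose (c + 1) : ℝ) := by
    rw [← TOW_one a c]
    push_cast
    rfl
  have e2 : ∑ i ∈ range (c + 2), (a.choose i : ℝ) * ((c + 2).choose (i + 2) : ℝ) =
      ((a + (c + 2)).choose c : ℝ) := by
    rw [← TOW_two a c]
    push_cast
    rfl
  have e3 : ∑ i ∈ range (c + 2), (a.choose i : ℝ) *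
      (((c + 2).choose (i + 1) : ℝ) - (c + 2).choose (i + 2)) =
      ((a + (c + 2)).choose (c + 1) : ℝ) - ((a + (c + 2)).choose c : ℝ) := by
    rw [← e1, ← e2, ← sum_sub_distrib]
    exact sum_congr rfl fun i _ => by ring
  have e4 : ((a + (c + 2)).choose (c + 1) : ℝ) * ((c : ℝ) + 1) =
      ((a + (c + 2)).choose c : ℝ) * ((a : ℝ) + 2) := by
    have h := Nat.choose_succ_right_eq (a + (c + 2)) c
    have h2 : a + (c + 2) - c = a + 2 := by omega
    rw [h2] at h
    exact_mod_cast h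
  have e5 : c + 2 - 1 = c + 1 := by omega
  rw [e3, e5]
  have h0 : (0 : ℝ) ≤ ((a + (c + 2)).choose (c + 1) : ℝ) := Nat.cast_nonneg _
  have h1 : (a : ℝ) ≤ (c : ℝ) + 2 := by exact_mod_cast hab
  nlinarith [mul_nonneg h0 (sub_nonneg.2 h1)]

end Pool.Agent.helper72.UP
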